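import Pool.Agent.Run7.h638.WR.Iface

/-! Pieces O1 and O3 of project WR (helper638): the computable list of the allowed windows.
`trNat_rec` and the proof of `bits_primrec` are adapted from `Pool/Agent/H502/PcSource.lean`. -/

set_option autoImplicit false

namespace Pool.Agent.Run7.h799.WR

open Pool.Agent.Run7.h638.WR Turing Turing.PartrecToTM2

theorem trNat_rec (n : ℕ) : trNat (n + 1) =
    (if (n + 1) % 2 = 1 then PartrecToTM2.Γ'.bit1 else PartrecToTM2.Γ'.bit0) ::
      trNat ((n + 1) / 2) := by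
  have key : ∀ (b : Bool) (m : ℕ), (b = false → m ≠ 0) → trNat (Nat.bit b m) =
      (if b then PartrecToTM2.Γ'.bit1 else PartrecToTM2.Γ'.bit0) :: trNat m := by
    intro b m hbm
    have h1 : ((Nat.bit b m : ℕ) : Num) = cond b Num.bit1 Num.bit0 (m : Num) :=
      Num.ofNat'_bit b m
    unfold trNat
    rw [h1]
    rcases hm : (m : Num) with _ | p
    · cases b
      · exfalso
        apply hbm rfl
        have : ((m : Num) : ℕ) = 0 := by rw [hm]; rfl
        rwa [Num.to_of_nat] at this
      · rfl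
    · cases b <;> rfl
  have h := key ((n + 1) % 2 = 1) ((n + 1) / 2) (by
    intro h
    simp only [decide_eq_false_iff_not] at h
    omega)
  have hb : Nat.bit (decide ((n + 1) % 2 = 1)) ((n + 1) / 2) = n + 1 := by
    by_cases h : (n + 1) % 2 = 1
    · simp [Nat.bit, h]; omega
    · simp [Nat.bit, h]; omega
  rw [hb] at h
  rw [h]
  simp

/-- letters to bits -/
def kb : Γ' → Bool
  | .bit1 => true
  | _ => false

theorem bits_primrec : Primrec (fun n : ℕ => (trNat n).map kb) := by
  suffices h : Primrec₂ (fun (_ : Unit) (n : ℕ) => (trNat n).map kb) from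
    h.comp (Primrec.const ()) Primrec.id
  refine Primrec.nat_strong_rec _ (g := fun _ (l : List (List Bool)) =>
    if l.length = 0 then some []
    else (l[l.length / 2]?).map (fun v =>
      (if l.length % 2 = 1 then true else false) :: v)) ?_ ?_
  · refine Primrec.ite (PrimrecRel.comp Primrec.eq
      (Primrec.list_length.comp Primrec.snd) (Primrec.const 0)) (Primrec.const _) ?_
    refine Primrec.option_map (Primrec.list_getElem?.comp Primrec.snd
      (Primrec.nat_div.comp (Primrec.list_length.comp Primrec.snd) (Primrec.const 2))) ?_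
    refine Primrec.list_cons.comp (Primrec.ite (PrimrecRel.comp Primrec.eq
      (Primrec.nat_mod.comp (Primrec.list_length.comp (Primrec.snd.comp Primrec.fst))
        (Primrec.const 2)) (Primrec.const 1)) (Primrec.const _) (Primrec.const _)) Primrec.snd
  · intro _ n
    rcases n with _ | n
    · simp
    · have : (n + 1) / 2 < n + 1 := by omega
      simp only [List.length_map, List.length_range]
      rw [if_neg (by omega)]
      rw [List.getElem?_map, List.getElem?_range this, trNat_rec n]
      simp only [Option.map_some, List.map_cons]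
      split_ifs <;> rfl

theorem bits_eq (n : ℕ) :
    trNat n = ((trNat n).map kb).map (fun b => cond b Γ'.bit1 Γ'.bit0) := by
  induction n using Nat.strong_induction_on with
  | _ n ih =>
    rcases n with _ | n
    · simp
    · have h := ih ((n + 1) / 2) (by omega)
      rw [trNat_rec n]
      simp only [List.map_cons]
      rw [← h]
      split_ifs <;> rfl

theorem t_O1 : O1 := ⟨fun n => (trNat n).map kb, bits_primrec, bits_eq⟩

theorem fin_St : Finite St := by
  refine Finite.of_injective (β := Fin 3) (fun s : St => match s with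
    | .run => 0
    | .sx => 1
    | .sb => 2) ?_
  intro a b h
  cases a <;> cases b <;> simp_all

theorem fin_K : Finite K' := by
  refine Finite.of_injective (β := Fin 4) (fun s : K' => match s with
    | .main => 0
    | .rev => 1
    | .aux => 2
    | .stack => 3) ?_
  intro a b h
  cases a <;> cases b <;> simp_all

theorem fin_Base (Q : Type) [Finite Q] : Finite (Base K' (Option Γ') Q) := by
  have h1 := fin_St
  have h2 := fin_K
  refine Finite.of_injective (β := Option ((St × Q) ⊕ (St × Q × (K' → Option (Option Γ')))))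
    (fun x => match x with
    | .J => none
    | .ctl s q => some (.inl (s, q))
    | .cell s q l => some (.inr (s, q, l))) ?_
  intro a b h
  cases a <;> cases b <;> simp_all

theorem mem_pred {α : Type} [Primcodable α] (l : List α) : PrimrecPred (fun x => x ∈ l) := by
  classical
  have h := (Primrec.eq (α := α)).exists_mem_list.comp (Primrec.const l) Primrec.id
  refine h.of_eq (fun x => ?_)
  simp

theorem idx_pred : PrimrecPred (fun x : ℕ × (ℕ × ℕ) => IdxOk x.1 x.2.1 x.2.2) := by
  have hl : Primrec (fun x : ℕ × (ℕ × ℕ) => x.1) := Primrec.fst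
  have ha : Primrec (fun x : ℕ × (ℕ × ℕ) => x.2.1) := Primrec.fst.comp Primrec.snd
  have hb : Primrec (fun x : ℕ × (ℕ × ℕ) => x.2.2) := Primrec.snd.comp Primrec.snd
  unfold IdxOk
  refine PrimrecPred.or ?_ (PrimrecPred.or ?_ ?_)
  · exact (Primrec.eq.comp ha (Primrec.const 0)).and (Primrec.nat_le.comp hb (Primrec.const 1))
  · exact (Primrec.nat_le.comp (Primrec.const 1) ha).and
      ((Primrec.nat_le.comp ha hl).and (Primrec.eq.comp hb (Primrec.succ.comp ha)))
  · exact (Primrec.eq.comp ha (Primrec.succ.comp hl)).and (Primrec.eq.comp hb (Primrec.const 0))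

/-- the condition on a window -/
def PP (W0 : List ((ℕ × ℕ) × (ℕ × ℕ))) (l : ℕ) (w : Win) : Prop :=
  ((w.1.1.1, w.1.2.1), (w.2.1.1, w.2.2.1)) ∈ W0 ∧ IdxOk l w.1.1.2 w.1.2.2

theorem pp_pred (W0 : List ((ℕ × ℕ) × (ℕ × ℕ))) :
    PrimrecPred (fun x : ℕ × Win => PP W0 x.1 x.2) := by
  have h11 : Primrec (fun x : ℕ × Win => x.2.1.1) :=
    Primrec.fst.comp (Primrec.fst.comp Primrec.snd)
  have h12 : Primrec (fun x : ℕ × Win => x.2.1.2) :=
    Primrec.snd.comp (Primrec.fst.comp Primrec.snd)
  have h21 : Primrec (fun x : ℕ × Win => x.2.2.1) :=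
    Primrec.fst.comp (Primrec.snd.comp Primrec.snd)
  have h22 : Primrec (fun x : ℕ × Win => x.2.2.2) :=
    Primrec.snd.comp (Primrec.snd.comp Primrec.snd)
  unfold PP
  refine PrimrecPred.and ?_ ?_
  · exact (mem_pred W0).comp (Primrec.pair
      (Primrec.pair (Primrec.fst.comp h11) (Primrec.fst.comp h12))
      (Primrec.pair (Primrec.fst.comp h21) (Primrec.fst.comp h22)))
  · exact idx_pred.comp (Primrec.pair Primrec.fst
      (Primrec.pair (Primrec.snd.comp h11) (Primrec.snd.comp h12)))

open scoped Classical in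
/-- the list of the windows -/
noncomputable def FF (W0 : List ((ℕ × ℕ) × (ℕ × ℕ))) (x : List Tile × ℕ) : List Win :=
  x.1.flatMap fun a => x.1.flatMap fun b => x.1.flatMap fun c => x.1.flatMap fun d =>
    if PP W0 x.2 ((a, b), (c, d)) then [((a, b), (c, d))] else []

open scoped Classical in
theorem FF_primrec (W0 : List ((ℕ × ℕ) × (ℕ × ℕ))) : Primrec (FF W0) := by
  have k1 : Primrec (fun p : ((((List Tile × ℕ) × Tile) × Tile) × Tile) × Tile => p.1.1.1.1.2) :=
    Primrec.snd.comp (Primrec.fst.comp (Primrec.fst.comp (Primrec.fst.comp Primrec.fst)))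
  have ka : Primrec (fun p : ((((List Tile × ℕ) × Tile) × Tile) × Tile) × Tile => p.1.1.1.2) :=
    Primrec.snd.comp (Primrec.fst.comp (Primrec.fst.comp Primrec.fst))
  have kb : Primrec (fun p : ((((List Tile × ℕ) × Tile) × Tile) × Tile) × Tile => p.1.1.2) :=
    Primrec.snd.comp (Primrec.fst.comp Primrec.fst)
  have kc : Primrec (fun p : ((((List Tile × ℕ) × Tile) × Tile) × Tile) × Tile => p.1.2) :=
    Primrec.snd.comp Primrec.fst
  have kd : Primrec (fun p : ((((List Tile × ℕ) × Tile) × Tile) × Tile) × Tile => p.2) :=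
    Primrec.snd
  have kw : Primrec (fun p : ((((List Tile × ℕ) × Tile) × Tile) × Tile) × Tile =>
      (((p.1.1.1.2, p.1.1.2), (p.1.2, p.2)) : Win)) :=
    Primrec.pair (Primrec.pair ka kb) (Primrec.pair kc kd)
  have h4 : Primrec (fun p : ((((List Tile × ℕ) × Tile) × Tile) × Tile) × Tile =>
      if PP W0 p.1.1.1.1.2 ((p.1.1.1.2, p.1.1.2), (p.1.2, p.2)) then
        [(((p.1.1.1.2, p.1.1.2), (p.1.2, p.2)) : Win)] else []) :=
    Primrec.ite ((pp_pred W0).comp (Primrec.pair k1 kw))
      (Primrec.list_cons.comp kw (Primrec.const [])) (Primrec.const [])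
  have h3 : Primrec (fun p : (((List Tile × ℕ) × Tile) × Tile) × Tile =>
      p.1.1.1.1.flatMap fun d => if PP W0 p.1.1.1.2 ((p.1.1.2, p.1.2), (p.2, d)) then
        [(((p.1.1.2, p.1.2), (p.2, d)) : Win)] else []) :=
    Primrec.list_flatMap (Primrec.fst.comp (Primrec.fst.comp (Primrec.fst.comp Primrec.fst)))
      h4.to₂
  have h2 : Primrec (fun p : ((List Tile × ℕ) × Tile) × Tile =>
      p.1.1.1.flatMap fun c => p.1.1.1.flatMap fun d =>
        if PP W0 p.1.1.2 ((p.1.2, p.2), (c, d)) then
        [(((p.1.2, p.2), (c, d)) : Win)] else []) :=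
    Primrec.list_flatMap (Primrec.fst.comp (Primrec.fst.comp Primrec.fst)) h3.to₂
  have h1 : Primrec (fun p : (List Tile × ℕ) × Tile =>
      p.1.1.flatMap fun b => p.1.1.flatMap fun c => p.1.1.flatMap fun d =>
        if PP W0 p.1.2 ((p.2, b), (c, d)) then
        [(((p.2, b), (c, d)) : Win)] else []) :=
    Primrec.list_flatMap (Primrec.fst.comp Primrec.fst) h2.to₂
  exact Primrec.list_flatMap Primrec.fst h1.to₂

theorem mem_FF (W0 : List ((ℕ × ℕ) × (ℕ × ℕ))) (T : List Tile) (l : ℕ) (w : Win) :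
    w ∈ FF W0 (T, l) ↔ w.1.1 ∈ T ∧ w.1.2 ∈ T ∧ w.2.1 ∈ T ∧ w.2.2 ∈ T ∧ PP W0 l w := by
  classical
  unfold FF
  simp only [List.mem_flatMap]
  constructor
  · rintro ⟨a, ha, b, hb, c, hc, d, hd, h⟩
    split_ifs at h with hP
    · rw [List.mem_singleton] at h
      subst h
      exact ⟨ha, hb, hc, hd, hP⟩
    · simp at h
  · rintro ⟨ha, hb, hc, hd, hP⟩
    obtain ⟨⟨a, b⟩, ⟨c, d⟩⟩ := w
    exact ⟨a, ha, b, hb, c, hc, d, hd, by rw [if_pos hP]; simp⟩

theorem t_O3 : O3 := by
  intro h1 h2 Q hQ prog q0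
  have hfin := fin_Base Q
  obtain ⟨e, he⟩ := exists_injective_nat (Base K' (Option Γ') Q)
  obtain ⟨t, ht, htn⟩ := h2 h1 Q hQ q0 e
  obtain ⟨g, hg, hgn⟩ := h1
  have hW : {x : (ℕ × ℕ) × (ℕ × ℕ) | ∃ a b c d : Base K' (Option Γ') Q,
      x = ((e a, e b), (e c, e d)) ∧ HR a b ∧ HR c d ∧ VR prog a b c d}.Finite := by
    refine Set.Finite.subset (Set.finite_range (fun p : (Base K' (Option Γ') Q ×
      Base K' (Option Γ') Q) × (Base K' (Option Γ') Q × Base K' (Option Γ') Q) =>
      (((e p.1.1, e p.1.2), (e p.2.1, e p.2.2)) : (ℕ × ℕ) × (ℕ × ℕ)))) ?_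
    rintro x ⟨a, b, c, d, rfl, _⟩
    exact ⟨((a, b), (c, d)), rfl⟩
  refine ⟨e, fun n => (trNat n).length + 2, fun n => FF hW.toFinset.toList
    (t n, (trNat n).length + 2), he, fun n => (by show 1 ≤ (trNat n).length + 2; omega), ?_, ?_, ?_⟩
  · intro n k
    unfold Pool.Agent.H662R2.SM.start
    by_cases hk : k = K'.main
    · subst hk
      rw [Function.update_self]
      simp
    · rw [Function.update_of_ne hk]
      simp
  · have hL : Primrec (fun n : ℕ => (trNat n).length + 2) := by
      have e1 : (fun n : ℕ => (trNat n).length + 2) = fun n => (g n).length + 2 := by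
        funext n
        rw [hgn n, List.length_map]
      rw [e1]
      exact Primrec.nat_add.comp (Primrec.list_length.comp hg) (Primrec.const 2)
    exact (FF_primrec _).to_comp.comp (ht.pair hL.to_comp)
  · intro n w
    rw [mem_FF, htn, htn, htn, htn]
    unfold PP OkW
    rw [Finset.mem_toList, Set.Finite.mem_toFinset]
    constructor
    · rintro ⟨k1, k2, k3, k4, ⟨a, b, c, d, hx, hr1, hr2, hv⟩, k5⟩
      simp only [Prod.mk.injEq] at hx
      exact ⟨⟨a, b, c, d, hx.1.1, hx.1.2, hx.2.1, hx.2.2, hr1, hr2, hv⟩, k1, k2, k3, k4, k5⟩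
    · rintro ⟨⟨a, b, c, d, x1, x2, x3, x4, hr1, hr2, hv⟩, k1, k2, k3, k4, k5⟩
      exact ⟨k1, k2, k3, k4, ⟨a, b, c, d, by rw [x1, x2, x3, x4], hr1, hr2, hv⟩, k5⟩

end Pool.Agent.Run7.h799.WR
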